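import Pool.Agent.Helper78.LE.LE15

/-!
The upper half of the next order asymptotics of the minimal logarithmic energy on `S^d`, for every
dimension `d ≥ 1` and every lattice of `ℝ^d` (in particular for `A₂`, `D₄`, `E₈` and the Leech
lattice, which give the conjectured value in dimension `2, 4, 8, 24`).
-/

set_option autoImplicit false

open MeasureTheory Set Filter Topology

namespace Pool.Agent.Helper78.Variants.UpperHalf

/-- `ℝ^n` with the Euclidean norm -/
abbrev E (n : ℕ) := EuclideanSpace ℝ (Fin n)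

/-- logarithmic energy of `N` points, sum over ordered pairs `i ≠ j` -/
noncomputable def logEnergy {n N : ℕ} (x : Fin N → E n) : ℝ :=
  ∑ i, ∑ j, if i = j then 0 else -Real.log ‖x i - x j‖

/-- the energies of all families of `N` distinct points of the unit sphere `S^d` of `ℝ^(d+1)` -/
def energySet (d N : ℕ) : Set ℝ :=
  {e : ℝ | ∃ x : Fin N → E (d + 1),
    (∀ i, ‖x i‖ = 1) ∧ Function.Injective x ∧ e = logEnergy x}

/-- the minimal logarithmic energy -/
noncomputable def minLog (d N : ℕ) : ℝ := sInf (energySet d N)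

/-- surface measure of `S^d` -/
noncomputable def sphMeas (d : ℕ) : Measure (Metric.sphere (0 : E (d + 1)) 1) :=
  (volume : Measure (E (d + 1))).toSphere

/-- the surface area `H_d(S^d)` -/
noncomputable def sphArea (d : ℕ) : ℝ := (sphMeas d Set.univ).toReal

/-- `V_log(S^d)` -/
noncomputable def Vlog (d : ℕ) : ℝ :=
  (∫ x, ∫ y, -Real.log ‖(x : E (d + 1)) - (y : E (d + 1))‖ ∂(sphMeas d) ∂(sphMeas d)) /
    sphArea d ^ 2

/-- covolume of the lattice spanned by the basis `b` -/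
noncomputable def covol {d : ℕ} (b : Module.Basis (Fin d) ℝ (E d)) : ℝ :=
  (volume (ZSpan.fundamentalDomain b)).toReal

/-- the lattice vector with integer coordinates `n` -/
noncomputable def latVec {d : ℕ} (b : Module.Basis (Fin d) ℝ (E d)) (n : Fin d → ℤ) : E d :=
  ∑ i, (n i : ℝ) • b i

/-- `Z` is the analytic continuation of the zeta function of the lattice to `Re s > -1`,
`s ≠ d` -/
def IsZeta {d : ℕ} (b : Module.Basis (Fin d) ℝ (E d)) (Z : ℂ → ℂ) : Prop :=
  (∀ s : ℂ, -1 < s.re → s ≠ d → DifferentiableAt ℂ Z s) ∧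
  ∀ s : ℂ, (d : ℝ) < s.re →
    Z s = ∑' n : {n : Fin d → ℤ // n ≠ 0}, ((‖latVec b n.1‖ : ℝ) : ℂ) ^ (-s)

theorem energySet_bddBelow (d N : ℕ) : BddBelow (energySet d N) := by
  refine ⟨∑ _i : Fin N, ∑ _j : Fin N, -Real.log 2, ?_⟩
  rintro e ⟨x, hx, -, rfl⟩
  apply Finset.sum_le_sum
  intro i _
  apply Finset.sum_le_sum
  intro j _
  split_ifs with h
  · have : 0 < Real.log 2 := Real.log_pos (by norm_num)
    linarith
  · exact Pool.Agent.Helper78.LE.neg_log_two_le _ _ (hx i) (hx j)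

theorem energySet_nonempty (d N : ℕ) (hd : 0 < d) : (energySet d N).Nonempty := by
  let e : E d := EuclideanSpace.single (⟨0, hd⟩ : Fin d) (1 : ℝ)
  have he : e ≠ 0 := by
    intro h
    have h1 : ‖e‖ = 1 := by simp [e]
    rw [h, norm_zero] at h1
    exact zero_ne_one h1
  refine ⟨_, fun i : Fin N => Pool.Agent.Helper78.LE.stereo (((i : ℕ) : ℝ) • e),
    fun i => Pool.Agent.Helper78.LE.norm_stereo _, ?_, rfl⟩
  intro i j hij
  have h1 : (((i : ℕ) : ℝ) • e) = (((j : ℕ) : ℝ) • e) :=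
    Pool.Agent.Helper78.LE.LE2.stereo_injective hij
  have h2 : ((i : ℕ) : ℝ) = ((j : ℕ) : ℝ) := smul_left_injective ℝ he h1
  exact Fin.ext (by exact_mod_cast h2)

/-- For every `d ≥ 1` and every lattice `Λ` of `ℝ^d`, with `c = ζ_Λ'(0)`: for every `ε > 0` and all
large `N` the minimal logarithmic energy of `N` points of `S^d` is at most
`V N² - (1/d) N log N + ((1/d) log (H_d/|Λ|) + ζ_Λ'(0) + ε) N`. -/
theorem result (d : ℕ) (hd : 0 < d) (b : Module.Basis (Fin d) ℝ (E d)) :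
    (∀ N : ℕ, (energySet d N).Nonempty ∧ BddBelow (energySet d N)) ∧
    (∃ Z : ℂ → ℂ, IsZeta b Z) ∧
    ∃ c : ℝ, (∀ Z : ℂ → ℂ, IsZeta b Z → deriv Z 0 = (c : ℂ)) ∧
      ∀ ε : ℝ, 0 < ε → ∀ᶠ N : ℕ in atTop,
        minLog d N ≤ Vlog d * (N : ℝ) ^ 2 - 1 / d * (N * Real.log N) +
          (1 / d * Real.log (sphArea d / covol b) + c + ε) * N := by
  obtain ⟨⟨Z0, hZ0⟩, hmain⟩ := Pool.Agent.Helper78.LE.main d hd b
  refine ⟨fun N => ⟨energySet_nonempty d N hd, energySet_bddBelow d N⟩, ⟨Z0, hZ0⟩,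
    (deriv Z0 0).re, ?_, ?_⟩
  · intro Z hZ
    have h1 := Pool.Agent.Helper78.LE.hasSum_Gam b d hd (by omega) Z hZ
    have h2 := Pool.Agent.Helper78.LE.hasSum_Gam b d hd (by omega) Z0 hZ0
    have h3 : deriv Z 0 = deriv Z0 0 := h1.unique h2
    have h4 := (Complex.hasSum_ofReal.mp (by
      have h5 := Complex.hasSum_re h2
      exact Complex.hasSum_ofReal.mpr h5 :
      HasSum (fun x : Fin d → ℤ => ((Pool.Agent.Helper78.LE.Gam b d x : ℝ) : ℂ))
        (((deriv Z0 0).re : ℝ) : ℂ)))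
    have h6 : HasSum (fun x : Fin d → ℤ => ((Pool.Agent.Helper78.LE.Gam b d x : ℝ) : ℂ))
        (((deriv Z0 0).re : ℝ) : ℂ) := Complex.hasSum_ofReal.mpr h4
    rw [h3]
    exact h2.unique h6
  · exact hmain Z0 hZ0

end Pool.Agent.Helper78.Variants.UpperHalf
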